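import Pool.Agent.K1H44.LC.Plan

/-!
Project LC (helper44), piece REIDX: the sum over the enumeration is the sum over `ℕ × ℕ`.
-/

set_option autoImplicit false

namespace Pool.Agent.K1H99.LC

open Pool.Agent.K1H44.LC

theorem pred_pow {p q : ℕ} (hp : p.Prime) (hq : q.Prime) (u v : ℕ) :
    0 < p ^ u * q ^ v ∧ (p ^ u * q ^ v).primeFactors ⊆ {p, q} := by
  refine ⟨Nat.mul_pos (pow_pos hp.pos _) (pow_pos hq.pos _), fun r hr => ?_⟩
  have h1 := Nat.prime_of_mem_primeFactors hr
  have h2 := Nat.dvd_of_mem_primeFactors hr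
  rw [Finset.mem_insert, Finset.mem_singleton]
  rcases h1.dvd_mul.1 h2 with h | h
  · exact Or.inl ((Nat.prime_dvd_prime_iff_eq h1 hp).1 (h1.dvd_of_dvd_pow h))
  · exact Or.inr ((Nat.prime_dvd_prime_iff_eq h1 hq).1 (h1.dvd_of_dvd_pow h))

theorem exists_pow {p q m : ℕ} (hpq : p ≠ q) (hm : 0 < m) (h : m.primeFactors ⊆ {p, q}) :
    ∃ u v : ℕ, p ^ u * q ^ v = m := by
  refine ⟨m.factorization p, m.factorization q, ?_⟩
  have h1 := Nat.prod_factorization_pow_eq_self hm.ne'
  rw [Finsupp.prod_of_support_subset (s := {p, q}) m.factorization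
    (by rw [Nat.support_factorization]; exact h) _ (fun i _ => pow_zero i),
    Finset.prod_pair hpq] at h1
  exact h1

theorem inj {p q : ℕ} (hp : p.Prime) (hq : q.Prime) (hpq : p ≠ q) :
    Function.Injective fun x : ℕ × ℕ => p ^ x.1 * q ^ x.2 := by
  rintro ⟨u, v⟩ ⟨u', v'⟩ h
  have h' : p ^ u * q ^ v = p ^ u' * q ^ v' := h
  have hp0 : ∀ n, p ^ n ≠ 0 := fun n => (pow_pos hp.pos n).ne'
  have hq0 : ∀ n, q ^ n ≠ 0 := fun n => (pow_pos hq.pos n).ne'
  have e1 := congrArg (fun m => m.factorization p) h'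
  have e2 := congrArg (fun m => m.factorization q) h'
  simp only [Nat.factorization_mul (hp0 _) (hq0 _), Finsupp.add_apply, hp.factorization_pow,
    hq.factorization_pow, Finsupp.single_apply, if_true, if_neg hpq, if_neg hpq.symm, add_zero,
    zero_add] at e1 e2
  rw [e1, e2]

theorem t_REIDX : S_REIDX := by
  intro p q h f
  obtain ⟨hp, hq, hpq⟩ := h
  set Q : ℕ → Prop := fun m => 0 < m ∧ m.primeFactors ⊆ {p, q} with hQ
  have hinf : {m | Q m}.Infinite := by
    refine Set.infinite_of_injective_forall_mem (f := fun x : ℕ × ℕ => p ^ x.1 * q ^ x.2)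
      (inj hp hq hpq) fun x => ?_
    exact pred_pow hp hq _ _
  have hr : Set.range (Nat.nth Q) = {m | Q m} := Nat.range_nth_of_infinite hinf
  have hinj : Function.Injective (Nat.nth Q) := Nat.nth_injective hinf
  set F : ℕ → ℝ := {m | Q m}.indicator f with hF
  have hs : Function.support F ⊆ {m | Q m} := Set.support_indicator_subset
  have e1 : ∑' n : ℕ, f (an {p, q} n) = ∑' n : ℕ, F (Nat.nth Q n) := by
    refine tsum_congr fun n => ?_
    have : Nat.nth Q n ∈ {m | Q m} := by rw [← hr]; exact Set.mem_range_self n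
    rw [hF, Set.indicator_of_mem this]
    rfl
  have e2 : ∑' x : ℕ × ℕ, f (p ^ x.1 * q ^ x.2) = ∑' x : ℕ × ℕ, F (p ^ x.1 * q ^ x.2) := by
    refine tsum_congr fun x => ?_
    rw [hF, Set.indicator_of_mem]
    exact pred_pow hp hq _ _
  rw [e1, e2, hinj.tsum_eq (f := F) (by rw [hr]; exact hs)]
  refine ((inj hp hq hpq).tsum_eq (f := F) fun m hm => ?_).symm
  obtain ⟨u, v, huv⟩ := exists_pow hpq (hs hm).1 (hs hm).2
  exact ⟨(u, v), huv⟩

end Pool.Agent.K1H99.LC
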